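import Pool.Agent.Helper21.LQ.Defs

set_option autoImplicit false

namespace Pool.Agent.Helper21.LQ

open Finset

/-- The edges inside level `0`. -/
def bip_G {V : Type} (G : SimpleGraph V) (lev : V → ℕ) : SimpleGraph V where
  Adj x y := G.Adj x y ∧ lev x = 0 ∧ lev y = 0
  symm := ⟨fun _ _ h => ⟨h.1.symm, h.2.2, h.2.1⟩⟩
  loopless := ⟨fun _ h => G.loopless.irrefl _ h.1⟩

instance bip_dec {V : Type} (G : SimpleGraph V) [DecidableRel G.Adj] (lev : V → ℕ) :
    DecidableRel (bip_G G lev).Adj :=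
  fun x y => inferInstanceAs (Decidable (G.Adj x y ∧ lev x = 0 ∧ lev y = 0))

theorem st_BIP (hC : ST_CHAIN) (hGal : ST_GAL) (hT : ST_TOP) : ST_BIP := by
  intro V _ _ G _ ε lev A hch hA
  apply hT V G
  intro L hL
  obtain ⟨c₀, h1, h2⟩ := hGal V (bip_G G lev) A G.maxDegree
    (fun x y h => hA x y h.1 h.2.1 h.2.2)
    (fun x => by
      refine le_trans ?_ (G.degree_le_maxDegree x)
      rw [← SimpleGraph.card_neighborFinset_eq_degree, ← SimpleGraph.card_neighborFinset_eq_degree]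
      refine card_le_card fun u hu => ?_
      rw [SimpleGraph.mem_neighborFinset] at hu ⊢
      exact hu.1)
    L (fun x y h => hL x y h.1)
  obtain ⟨c, h3, h4, h5⟩ := hC V G ε lev G.maxDegree hch L c₀ (fun x y h _ => hL x y h)
    (fun x y z hx hy hz hxy hxz hyz => h2 x y z ⟨hxy, hx, hy⟩ ⟨hxz, hx, hz⟩ hyz)
  refine ⟨c, ?_, h5⟩
  intro x y hxy
  by_cases h0 : lev x = 0 ∧ lev y = 0
  · rw [h3 x y h0.1 h0.2 hxy]
    exact h1 x y ⟨hxy, h0.1, h0.2⟩
  · exact h4 x y hxy h0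

end Pool.Agent.Helper21.LQ
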