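import Pool.Agent.Helper21.LQ.Defs

set_option autoImplicit false

namespace Pool.Agent.Helper21.LQ

open Finset

/-- The edges inside the levels `≤ j`. -/
def chain_G {V : Type} (G : SimpleGraph V) (lev : V → ℕ) (j : ℕ) : SimpleGraph V where
  Adj x y := G.Adj x y ∧ lev x ≤ j ∧ lev y ≤ j
  symm := ⟨fun _ _ h => ⟨h.1.symm, h.2.2, h.2.1⟩⟩
  loopless := ⟨fun _ h => G.loopless.irrefl _ h.1⟩

instance chain_dec {V : Type} (G : SimpleGraph V) [DecidableRel G.Adj] (lev : V → ℕ) (j : ℕ) :
    DecidableRel (chain_G G lev j).Adj :=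
  fun x y => inferInstanceAs (Decidable (G.Adj x y ∧ lev x ≤ j ∧ lev y ≤ j))

theorem chain_adj {V : Type} (G : SimpleGraph V) (lev : V → ℕ) (j : ℕ) (x y : V) :
    (chain_G G lev j).Adj x y ↔ G.Adj x y ∧ lev x ≤ j ∧ lev y ≤ j := Iff.rfl

theorem chain_ext {V : Type} [Fintype V] [DecidableEq V] (G : SimpleGraph V)
    [DecidableRel G.Adj] (ε : ℝ) (lev : V → ℕ) (k : ℕ) (h : Chain G ε lev k) (j : ℕ) :
    Ext (chain_G G lev (j + 1)) ε (univ.filter (fun v => lev v ≤ j)) k := by
  have hlow : ∀ t, lev t ≤ j + 1 →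
      ((chain_G G lev (j + 1)).neighborFinset t).filter
        (fun u => u ∈ univ.filter (fun v => lev v ≤ j)) =
      (G.neighborFinset t).filter (fun u => lev u < j + 1) := by
    intro t ht
    ext u
    simp only [mem_filter, SimpleGraph.mem_neighborFinset, chain_adj, mem_univ, true_and]
    constructor
    · rintro ⟨⟨h1, _, _⟩, h2⟩
      exact ⟨h1, by omega⟩
    · rintro ⟨h1, h2⟩
      exact ⟨⟨h1, ht, by omega⟩, by omega⟩
  refine ⟨h.pos, h.le_one, h.k_le, h.k_large, ?_, ?_⟩
  · intro t ht r hr hadj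
    have ht' : lev t ≤ j := by simpa using ht
    have hr' : ¬ lev r ≤ j := by simpa using hr
    have hr2 : lev r = j + 1 := by
      have := hadj.2.2
      omega
    have h1 := h.tight t r hadj.1 (by omega)
    constructor
    · refine le_trans ?_ h1.1
      rw [← SimpleGraph.card_neighborFinset_eq_degree, ← SimpleGraph.card_neighborFinset_eq_degree]
      refine card_le_card fun u hu => ?_
      rw [SimpleGraph.mem_neighborFinset] at hu ⊢
      exact hu.1
    · rw [hlow t (by omega)]
      have h2 := h1.2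
      rw [hr2] at h2
      exact h2
  · intro r hr
    have hr' : ¬ lev r ≤ j := by simpa using hr
    by_cases hr2 : lev r = j + 1
    · have h1 := h.slack r (by omega)
      rw [hr2] at h1
      rw [hlow r (by omega)]
      have h2 : ((chain_G G lev (j + 1)).neighborFinset r).filter
          (fun u => u ∉ univ.filter (fun v => lev v ≤ j)) =
          (G.neighborFinset r).filter (fun u => lev u = j + 1) := by
        ext u
        simp only [mem_filter, SimpleGraph.mem_neighborFinset, chain_adj, mem_univ, true_and]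
        constructor
        · rintro ⟨⟨h1, _, h3⟩, h2⟩
          exact ⟨h1, by omega⟩
        · rintro ⟨h1, h2⟩
          exact ⟨⟨h1, by omega, by omega⟩, by omega⟩
      rw [h2]
      refine le_trans (le_of_eq ?_) h1
      congr 1
      refine sum_congr rfl fun t ht => ?_
      have ht2 := (mem_filter.1 ht).2
      rw [hlow t (by omega)]
      rfl
    · have h1 : (chain_G G lev (j + 1)).neighborFinset r = ∅ := by
        ext u
        simp only [SimpleGraph.mem_neighborFinset, chain_adj, notMem_empty, iff_false]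
        rintro ⟨_, h2, _⟩
        omega
      rw [h1]
      simp only [filter_empty, sum_empty, card_empty, Nat.cast_zero, zero_div, add_zero]
      linarith [h.le_one]

theorem st_CHAIN (hE : ST_EXT) : ST_CHAIN := by
  intro V _ _ G _ ε lev k hC L c₀ hL hc₀
  have key : ∀ j : ℕ, ∃ c : Sym2 V → ℕ,
      (∀ x y, lev x = 0 → lev y = 0 → G.Adj x y → c s(x, y) = c₀ s(x, y)) ∧
      (∀ x y, G.Adj x y → lev x ≤ j → lev y ≤ j → ¬ (lev x = 0 ∧ lev y = 0) →
        c s(x, y) ∈ L s(x, y)) ∧
      (∀ x y z, lev x ≤ j → lev y ≤ j → lev z ≤ j → G.Adj x y → G.Adj x z → y ≠ z →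
        c s(x, y) ≠ c s(x, z)) := by
    intro j
    induction j with
    | zero =>
      refine ⟨c₀, fun _ _ _ _ _ => rfl, ?_, ?_⟩
      · intro x y _ hx hy hn
        exact absurd ⟨by omega, by omega⟩ hn
      · intro x y z hx hy hz h1 h2 h3
        exact hc₀ x y z (by omega) (by omega) (by omega) h1 h2 h3
    | succ j ih =>
      obtain ⟨c, hc1, hc2, hc3⟩ := ih
      have hmem : ∀ x, x ∈ univ.filter (fun v => lev v ≤ j) ↔ lev x ≤ j := fun x => by simp
      obtain ⟨c', h1, h2, h3⟩ := hE V (chain_G G lev (j + 1)) ε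
        (univ.filter (fun v => lev v ≤ j)) k (chain_ext G ε lev k hC j) L c
        (by
          intro x y hxy hn
          rw [hmem, hmem] at hn
          exact hL x y hxy.1 (by omega))
        (by
          intro x hx y hy z hz hxy hxz hyz
          rw [hmem] at hx hy hz
          exact hc3 x y z hx hy hz hxy.1 hxz.1 hyz)
      refine ⟨c', ?_, ?_, ?_⟩
      · intro x y hx hy hxy
        rw [h1 x ((hmem x).2 (by omega)) y ((hmem y).2 (by omega)) ⟨hxy, by omega, by omega⟩]
        exact hc1 x y hx hy hxy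
      · intro x y hxy hx hy hn
        by_cases hT : lev x ≤ j ∧ lev y ≤ j
        · rw [h1 x ((hmem x).2 hT.1) y ((hmem y).2 hT.2) ⟨hxy, hx, hy⟩]
          exact hc2 x y hxy hT.1 hT.2 hn
        · exact h2 x y ⟨hxy, hx, hy⟩ (by rw [hmem, hmem]; exact hT)
      · intro x y z hx hy hz hxy hxz hyz
        exact h3 x y z ⟨hxy, hx, hy⟩ ⟨hxz, hx, hz⟩ hyz
  obtain ⟨c, h1, h2, h3⟩ := key (univ.sup lev)
  have hle : ∀ x, lev x ≤ univ.sup lev := fun x => le_sup (f := lev) (mem_univ x)
  exact ⟨c, h1, fun x y hxy hn => h2 x y hxy (hle x) (hle y) hn,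
    fun x y z hxy hxz hyz => h3 x y z (hle x) (hle y) (hle z) hxy hxz hyz⟩

end Pool.Agent.Helper21.LQ
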