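import Pool.Agent.Helper21.LQ.Defs

set_option autoImplicit false

namespace Pool.Agent.Helper21.LQ

open Finset

theorem expm_aux (x : ℝ) (h : |x| ≤ 1) : Real.exp x ≤ 1 + x + x ^ 2 := by
  have h1 := Real.abs_exp_sub_one_sub_id_le h
  have h2 := (abs_le.1 h1).2
  linarith

theorem st_EXPM : ST_EXPM := by
  intro A _ p Z lam μ u hp hZ h1 h2
  have h3 : ∑ a, p a * Real.exp (lam * Z a) ≤
      ∑ a, p a * (1 + lam * Z a + (lam * Z a) ^ 2) := by
    refine sum_le_sum fun a _ => ?_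
    by_cases ha : p a = 0
    · rw [ha, zero_mul, zero_mul]
    · exact mul_le_mul_of_nonneg_left (expm_aux _ (hZ a ha)) (hp.1 a)
  have h4 : ∑ a, p a * (1 + lam * Z a + (lam * Z a) ^ 2) =
      1 + lam * ∑ a, p a * Z a + lam ^ 2 * ∑ a, p a * Z a ^ 2 := by
    have h7 : ∑ a, p a * (1 + lam * Z a + (lam * Z a) ^ 2) =
        ∑ a, p a + lam * ∑ a, p a * Z a + lam ^ 2 * ∑ a, p a * Z a ^ 2 := by
      rw [mul_sum, mul_sum, ← sum_add_distrib, ← sum_add_distrib]
      refine sum_congr rfl fun a _ => ?_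
      ring
    rw [h7, hp.2]
  have h5 : lam ^ 2 * ∑ a, p a * Z a ^ 2 ≤ lam ^ 2 * u :=
    mul_le_mul_of_nonneg_left h2 (sq_nonneg _)
  have h6 := Real.add_one_le_exp (μ + lam ^ 2 * u)
  linarith

end Pool.Agent.Helper21.LQ
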