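import Pool.Agent.Helper21.LQ.Defs

set_option autoImplicit false

namespace Pool.Agent.Helper21.LQ

open Finset

theorem lin_post_sub {R Γ : Type} [Fintype R] [DecidableEq R] [Fintype Γ] [DecidableEq Γ]
    (X y a : R → Γ → ℝ) (hy : ∀ r γ, 0 ≤ y r γ ∧ y r γ ≤ 1 / 2) (f : R → Option Γ) :
    lin a (post X y f) - lin a X =
      (∑ r, ∑ γ, a r γ * X r γ / (1 - y r γ) * y r γ) -
        ∑ r, ∑ γ, (if f r = some γ then a r γ * X r γ / (1 - y r γ) else 0) := by
  unfold lin post
  rw [← sum_sub_distrib, ← sum_sub_distrib]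
  refine sum_congr rfl fun r _ => ?_
  rw [← sum_sub_distrib, ← sum_sub_distrib]
  refine sum_congr rfl fun γ _ => ?_
  have h1 : (1 - y r γ) ≠ 0 := by have := (hy r γ).2; linarith
  split_ifs with h
  · field_simp
    ring
  · field_simp
    ring

theorem lin_marg {R Γ : Type} [Fintype R] [DecidableEq R] [Fintype Γ] [DecidableEq Γ]
    (y w : R → Γ → ℝ) (p : (R → Option Γ) → ℝ) (hm : Marg p y) :
    ∑ f : R → Option Γ, p f * ∑ r, ∑ γ, (if f r = some γ then w r γ else 0) =
      ∑ r, ∑ γ, w r γ * y r γ := by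
  simp_rw [mul_sum]
  rw [sum_comm]
  refine sum_congr rfl fun r _ => ?_
  rw [sum_comm]
  refine sum_congr rfl fun γ _ => ?_
  rw [← hm r γ, mul_sum]
  refine sum_congr rfl fun f _ => ?_
  split_ifs <;> ring

theorem st_LIN (hRL : ST_RLIN) : ST_LIN := by
  intro R Γ _ _ _ _ X y a p Xm lam hX hy ha hp hm hone hlam
  have hXm : ∀ r γ, 0 ≤ a r γ * X r γ / (1 - y r γ) ∧
      a r γ * X r γ / (1 - y r γ) ≤ 2 * Xm * a r γ := by
    intro r γ
    have h1 := hX r γ
    have h2 := hy r γ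
    have h3 := ha r γ
    have h4 : (0 : ℝ) < 1 - y r γ := by linarith
    constructor
    · exact div_nonneg (mul_nonneg h3 h1.1) h4.le
    · rw [div_le_iff₀ h4]
      have h5 : a r γ * X r γ ≤ a r γ * Xm := mul_le_mul_of_nonneg_left h1.2 h3
      have h6 : 0 ≤ a r γ * Xm := le_trans (mul_nonneg h3 h1.1) h5
      nlinarith
  have hXm0 : 0 ≤ 2 * Xm ∨ (IsEmpty R ∨ IsEmpty Γ) := by
    by_cases hR : IsEmpty R
    · exact Or.inr (Or.inl hR)
    by_cases hG : IsEmpty Γ
    · exact Or.inr (Or.inr hG)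
    rw [not_isEmpty_iff] at hR hG
    obtain ⟨r⟩ := hR
    obtain ⟨γ⟩ := hG
    left
    have := hX r γ
    linarith
  rcases hXm0 with hXm0 | hE
  swap
  · have hz : ∀ b : R → Γ → ℝ, ∑ r, ∑ γ, b r γ = 0 := by
      intro b
      rcases hE with hE | hE
      · exact Fintype.sum_empty _
      · exact sum_eq_zero fun r _ => Fintype.sum_empty _
    unfold lin
    simp only [hz, sub_self, mul_zero, Real.exp_zero, mul_one]
    rw [hp.2]
  set w : R → Γ → ℝ := fun r γ => a r γ * X r γ / (1 - y r γ) with hw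
  set b : (R → Option Γ) → ℝ := fun f => ∑ r, ∑ γ, (if f r = some γ then w r γ else 0) with hbd
  have hb : ∀ f, p f ≠ 0 → 0 ≤ b f ∧ b f ≤ 2 * Xm := by
    intro f hf
    constructor
    · refine sum_nonneg fun r _ => sum_nonneg fun γ _ => ?_
      split_ifs
      · exact (hXm r γ).1
      · exact le_rfl
    · calc b f ≤ ∑ r, ∑ γ, 2 * Xm * (if f r = some γ then a r γ else 0) := by
            refine sum_le_sum fun r _ => sum_le_sum fun γ _ => ?_
            split_ifs
            · exact (hXm r γ).2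
            · rw [mul_zero]
        _ = 2 * Xm * ∑ r, ∑ γ, (if f r = some γ then a r γ else 0) := by
            rw [mul_sum]
            exact sum_congr rfl fun r _ => (mul_sum _ _ _).symm
        _ ≤ 2 * Xm * 1 := mul_le_mul_of_nonneg_left (hone f hf) hXm0
        _ = 2 * Xm := mul_one _
  have h1 := hRL (R → Option Γ) p b lam (2 * Xm) hp hb hXm0 hlam
  have h2 : ∑ f, p f * b f = ∑ r, ∑ γ, w r γ * y r γ := lin_marg y w p hm
  have h3 : ∑ f, p f * b f ≤ 2 * Xm * lin a y := by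
    rw [h2]
    unfold lin
    rw [mul_sum]
    refine sum_le_sum fun r _ => ?_
    rw [mul_sum]
    refine sum_le_sum fun γ _ => ?_
    have h4 := mul_le_mul_of_nonneg_right (hXm r γ).2 (hy r γ).1
    calc w r γ * y r γ ≤ 2 * Xm * a r γ * y r γ := h4
      _ = _ := by ring
  have h4 : ∀ f, lin a (post X y f) - lin a X = ∑ f', p f' * b f' - b f := by
    intro f
    rw [lin_post_sub X y a hy f, h2]
  simp_rw [h4]
  refine h1.trans (Real.exp_le_exp.2 ?_)
  have h5 : 0 ≤ lam ^ 2 * (2 * Xm) := mul_nonneg (sq_nonneg _) hXm0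
  calc lam ^ 2 * (2 * Xm) * ∑ f, p f * b f ≤ lam ^ 2 * (2 * Xm) * (2 * Xm * lin a y) :=
        mul_le_mul_of_nonneg_left h3 h5
    _ = 4 * Xm ^ 2 * lam ^ 2 * lin a y := by ring

end Pool.Agent.Helper21.LQ
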