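import Pool.Agent.Helper21.LQ.Defs

set_option autoImplicit false

namespace Pool.Agent.Helper21.LQ

open Finset

theorem st_RLIN (hE : ST_EXPM) : ST_RLIN := by
  intro A _ p b lam B hp hb hB hlam
  set S : ℝ := ∑ a, p a * b a with hS
  have hS0 : 0 ≤ S := by
    refine sum_nonneg fun a _ => ?_
    by_cases ha : p a = 0
    · rw [ha, zero_mul]
    · exact mul_nonneg (hp.1 a) (hb a ha).1
  have hpb : ∀ a, p a * b a ≤ p a * B := by
    intro a
    by_cases ha : p a = 0
    · rw [ha, zero_mul, zero_mul]
    · exact mul_le_mul_of_nonneg_left (hb a ha).2 (hp.1 a)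
  have hSB : S ≤ B := by
    calc S ≤ ∑ a, p a * B := sum_le_sum fun a _ => hpb a
      _ = B := by rw [← sum_mul, hp.2, one_mul]
  have h := hE A p (fun a => S - b a) lam 0 (B * S) hp ?_ ?_ ?_
  · refine h.trans (le_of_eq ?_)
    congr 1
    ring
  · intro a ha
    rw [abs_mul]
    have h1 : |S - b a| ≤ B := by
      rw [abs_le]
      constructor
      · linarith [(hb a ha).2]
      · linarith [(hb a ha).1]
    exact (mul_le_mul_of_nonneg_left h1 (abs_nonneg _)).trans hlam
  · have h1 : ∑ a, p a * (S - b a) = 0 := by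
      have h2 : ∑ a, p a * (S - b a) = (∑ a, p a) * S - ∑ a, p a * b a := by
        rw [sum_mul, ← sum_sub_distrib]
        exact sum_congr rfl fun a _ => by ring
      rw [h2, hp.2, ← hS]
      ring
    rw [h1, mul_zero]
  · have h2 : ∑ a, p a * (S - b a) ^ 2 = (∑ a, p a) * S ^ 2 - 2 * S * ∑ a, p a * b a +
        ∑ a, p a * b a ^ 2 := by
      rw [sum_mul, mul_sum, ← sum_sub_distrib, ← sum_add_distrib]
      exact sum_congr rfl fun a _ => by ring
    have h3 : ∑ a, p a * b a ^ 2 ≤ B * S := by
      rw [hS, mul_sum]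
      refine sum_le_sum fun a _ => ?_
      by_cases ha : p a = 0
      · rw [ha, zero_mul, zero_mul, mul_zero]
      · have h4 := hb a ha
        have h5 := hp.1 a
        have h6 : b a ^ 2 ≤ B * b a := by nlinarith
        nlinarith
    rw [h2, hp.2, ← hS]
    nlinarith [sq_nonneg S]

end Pool.Agent.Helper21.LQ
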