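import Pool.Agent.Helper21.LQ.Defs

set_option autoImplicit false

namespace Pool.Agent.Helper21.LQ

open Finset

theorem top_maxDegree_le {V : Type} [Fintype V] [DecidableEq V] (G : SimpleGraph V)
    [DecidableRel G.Adj] (n : ℕ) (h : G.lineGraph.Colorable n) : G.maxDegree ≤ n := by
  classical
  obtain ⟨c⟩ := h
  apply G.maxDegree_le_of_forall_degree_le
  intro v
  have hinj : Set.InjOn (fun w => if hw : G.Adj v w then (c ⟨s(v, w), hw⟩ : Fin n).1 else 0)
      (G.neighborFinset v) := by
    intro a ha b hb hab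
    have ha : G.Adj v a := by simpa using ha
    have hb : G.Adj v b := by simpa using hb
    simp only [ha, hb, dif_pos] at hab
    by_contra hne
    have : G.lineGraph.Adj ⟨s(v, a), ha⟩ ⟨s(v, b), hb⟩ := by
      rw [SimpleGraph.lineGraph_adj_iff_exists]
      refine ⟨?_, v, by simp, by simp⟩
      intro hh
      have hh' : s(v, a) = s(v, b) := congrArg Subtype.val hh
      rw [Sym2.congr_right] at hh'
      exact hne hh'
    exact c.valid this (Fin.ext hab)
  have hmaps : ∀ w ∈ G.neighborFinset v,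
      (if hw : G.Adj v w then (c ⟨s(v, w), hw⟩ : Fin n).1 else 0) ∈ range n := by
    intro w hw
    have hw : G.Adj v w := by simpa using hw
    simp only [hw, dif_pos, mem_range]
    exact (c ⟨s(v, w), hw⟩).2
  have := card_le_card_of_injOn _ hmaps hinj
  rw [card_range] at this
  exact this

theorem st_TOP : ST_TOP := by
  intro V _ _ G _ hcol n
  classical
  have h1 : (∀ L : G.edgeSet → Finset ℕ, (∀ e, n ≤ (L e).card) →
      ∃ f : G.edgeSet → ℕ, (∀ e, f e ∈ L e) ∧ ∀ e e', G.lineGraph.Adj e e' → f e ≠ f e') →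
      G.lineGraph.Colorable n := by
    intro hh
    obtain ⟨f, hf, hf'⟩ := hh (fun _ => range n) (fun _ => by rw [card_range])
    exact ⟨SimpleGraph.Coloring.mk (fun e => (⟨f e, mem_range.1 (hf e)⟩ : Fin n))
      (fun {a b} hab hcon => hf' a b hab (by simpa using hcon))⟩
  have h2 : G.maxDegree ≤ n → ∀ L : G.edgeSet → Finset ℕ, (∀ e, n ≤ (L e).card) →
      ∃ f : G.edgeSet → ℕ, (∀ e, f e ∈ L e) ∧
        ∀ e e', G.lineGraph.Adj e e' → f e ≠ f e' := by
    intro hn L hL
    obtain ⟨f, hf1, hf2⟩ := hcol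
      (fun e => if he : e ∈ G.edgeSet then L ⟨e, he⟩ else ∅) (fun x y hxy => by
        have he : s(x, y) ∈ G.edgeSet := hxy
        simp only [he, dif_pos]; exact hn.trans (hL _))
    refine ⟨fun e => f e.1, ?_, ?_⟩
    · rintro ⟨e, he⟩
      induction e with
      | _ a b =>
        have := hf1 a b he
        simpa only [he, dif_pos] using this
    · rintro ⟨e, he⟩ ⟨e', he'⟩ hadj
      rw [SimpleGraph.lineGraph_adj_iff_exists] at hadj
      obtain ⟨hne, x, hx, hx'⟩ := hadj
      obtain ⟨a, rfl⟩ := Sym2.mem_iff_exists.1 hx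
      obtain ⟨b, rfl⟩ := Sym2.mem_iff_exists.1 hx'
      have hab : a ≠ b := fun hh => hne (by subst hh; rfl)
      exact hf2 x a b he he' hab
  have h3 := top_maxDegree_le G n
  exact ⟨⟨fun hc => h2 (h3 hc), h1⟩, ⟨h3, fun hn => h1 (h2 hn)⟩⟩

end Pool.Agent.Helper21.LQ
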